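import Pool.Agent.Lib.BCH.RoeDefs

/-! Ample modules exist. -/

namespace Pool.Agent.Lib.PD

open Pool.Agent.Lib.BCH

/-- The free set on countably many orbits. -/
structure FreeSet (Γ : Type) where
  g : Γ
  k : ℕ × ℕ

instance {Γ : Type} [Group Γ] : MulAction Γ (FreeSet Γ) where
  smul a z := ⟨a * z.g, z.k⟩
  one_smul z := congrArg (FreeSet.mk · z.k) (one_mul z.g)
  mul_smul a b z := congrArg (FreeSet.mk · z.k) (mul_assoc a b z.g)

theorem exists_ample (Γ X : Type) [Group Γ] [MetricSpace X] [MulAction Γ X] [Countable Γ]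
    [TopologicalSpace.SeparableSpace X] [Nonempty X] :
    ∃ (Z : Type) (_ : MulAction Γ Z) (pos : Z → X), IsAmple Γ pos := by
  refine ⟨FreeSet Γ, inferInstance, fun z => z.g • TopologicalSpace.denseSeq X z.k.1, ?_,
    fun g z h => ?_, fun g z => mul_smul g z.g _, fun U hU hne => ?_⟩
  · exact Function.Injective.countable (f := fun z : FreeSet Γ => (z.g, z.k))
      fun ⟨_, _⟩ ⟨_, _⟩ h => by simpa using h
  · exact mul_eq_right.1 (congrArg FreeSet.g h)
  · obtain ⟨k, hk⟩ := (TopologicalSpace.denseRange_denseSeq X).exists_mem_open hU hne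
    exact Set.infinite_of_injective_forall_mem (f := fun i : ℕ => (⟨1, k, i⟩ : FreeSet Γ))
      (fun i j h => by simpa using h) fun i => by simpa using hk

theorem countable_of_proper {Γ X : Type} [Group Γ] [MetricSpace X] [MulAction Γ X] (o : X)
    (hp : ∀ R : ℝ, {g : Γ | dist o (g • o) ≤ R}.Finite) : Countable Γ := by
  refine Set.countable_univ_iff.1 ((Set.countable_iUnion fun m : ℕ => (hp m).countable).mono
    fun g _ => ?_)
  obtain ⟨m, hm⟩ := exists_nat_ge (dist o (g • o))
  exact Set.mem_iUnion.2 ⟨m, hm⟩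

end Pool.Agent.Lib.PD
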