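import Pool.Agent.Lib.PD.Geo

/-! Real algebraic groups that are stable under transposition are reductive. -/

noncomputable section

open Matrix Finset

namespace Pool.Agent.Lib.PD

variable {n : ℕ}

/-- `G` is the set of invertible zeros of a family of polynomials in the entries. -/
def IsAlgebraicGroup (G : Subgroup (GL (Fin n) ℝ)) : Prop :=
  ∃ I : Set (MvPolynomial (Fin n × Fin n) ℝ), ∀ g : GL (Fin n) ℝ,
    g ∈ G ↔ ∀ p ∈ I, MvPolynomial.eval (fun l => g.val l.1 l.2) p = 0

/-- The character `μ ↦ exp (t μ)`. -/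
def chi (t : ℝ) : Multiplicative ℝ →* ℝ where
  toFun μ := Real.exp (t * μ.toAdd)
  map_one' := by simp
  map_mul' a b := by simp [mul_add, Real.exp_add]

lemma expPoly_zero (c : AddMonoidAlgebra ℝ ℝ)
    (h : ∀ m : ℕ, AddMonoidAlgebra.lift ℝ ℝ ℝ (chi (m * 2)) c = 0) (t : ℝ) :
    AddMonoidAlgebra.lift ℝ ℝ ℝ (chi t) c = 0 := by
  have h1 := (linearIndependent_monoidHom (Multiplicative ℕ) ℝ).comp
    (fun μ : ℝ => powersHom ℝ (Real.exp (2 * μ))) fun a b hab => by
      have := Real.exp_injective ((powersHom ℝ).injective hab)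
      linarith
  have h2 := linearIndependent_iff.1 h1 c.coeff (funext fun m => by
    have := h m.toAdd
    rw [AddMonoidAlgebra.lift_apply] at this
    rw [Finsupp.linearCombination_apply, Finsupp.sum, Finset.sum_apply, Pi.zero_apply, ← this]
    refine sum_congr rfl fun μ _ => ?_
    simp [chi, ← Real.exp_nat_mul, mul_assoc])
  rw [AddMonoidAlgebra.lift_apply, h2, Finsupp.sum_zero_index]

theorem isReductive_of_algebraic {G : Subgroup (GL (Fin n) ℝ)} (hG : IsAlgebraicGroup G)
    (hT : ∀ g ∈ G, ∃ h ∈ G, h.val = g.valᵀ) : IsReductive G := by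
  obtain ⟨I, hI⟩ := hG
  refine ⟨?_, hT, fun p hp h => ?_⟩
  · have : (G : Set (GL (Fin n) ℝ)) =
        ⋂ p ∈ I, {g | MvPolynomial.eval (fun l => g.val l.1 l.2) p = 0} := by
      ext g; simp [hI]
    rw [this]
    refine isClosed_biInter fun p _ => isClosed_eq ((MvPolynomial.continuous_eval p).comp
      (continuous_pi fun l => Units.continuous_val.matrix_elem l.1 l.2)) continuous_const
  · obtain ⟨U, x, hU, h2⟩ := spec hp
    have e : p = qq hU x 1 := Units.ext (by rw [h2, ← one_smul ℝ x]; simp [qq])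
    have hm : ∀ m : ℕ, qq hU x (m * 2) ∈ G := fun m => by
      induction m with
      | zero => rw [Nat.cast_zero, zero_mul, qq_zero]; exact G.one_mem
      | succ m ih =>
        rw [show ((m + 1 : ℕ) : ℝ) * 2 = m * 2 + (1 + 1) by push_cast; ring, qq_add, qq_add, ← e]
        exact G.mul_mem ih h
    let a : Fin n × Fin n → AddMonoidAlgebra ℝ ℝ := fun l =>
      ∑ k, AddMonoidAlgebra.single (x k) (U l.1 k * U l.2 k)
    have key : ∀ (t : ℝ) (P : MvPolynomial (Fin n × Fin n) ℝ),
        MvPolynomial.eval (fun l => (qq hU x t).val l.1 l.2) P =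
          AddMonoidAlgebra.lift ℝ ℝ ℝ (chi t) (MvPolynomial.aeval a P) := fun t P => by
      rw [MvPolynomial.comp_aeval_apply, MvPolynomial.aeval_eq_eval]
      congr 2
      funext l
      change (U * ex (t • x) * Uᵀ) l.1 l.2 = _
      rw [map_sum, mul_apply]
      refine sum_congr rfl fun k _ => ?_
      rw [ex, mul_diagonal]
      simp [chi]; ring
    rw [e, hI]
    exact fun P hP => (key 1 P).trans (expPoly_zero _
      (fun m => (key _ P).symm.trans ((hI _).1 (hm m) P hP)) 1)

end Pool.Agent.Lib.PD
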