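import Pool.Agent.Lib.PD.Mat

/-! The symmetric space of positive definite matrices and of a reductive subgroup. -/

noncomputable section

open Matrix

namespace Pool.Agent.Lib.PD

variable {n : ℕ}

/-- Positive definite real matrices. -/
@[ext] structure Pos (n : ℕ) where
  val : Matrix (Fin n) (Fin n) ℝ
  pos : val.PosDef

/-- The invariant Riemannian distance. -/
instance : MetricSpace (Pos n) where
  dist A B := pd A.val B.val
  dist_self A := pd_self A.pos
  dist_comm A B := pd_comm A.pos B.pos
  dist_triangle A B C := pd_triangle A.pos B.pos C.pos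
  eq_of_dist_eq_zero {A B} h := Pos.ext (eq_of_pd A.pos B.pos h)

/-- The action `g • A = g A gᵀ`. -/
instance : MulAction (GL (Fin n) ℝ) (Pos n) where
  smul g A := ⟨g.val * A.val * g.valᵀ, cg_pos ((isUnit_iff_isUnit_det _).1 g.isUnit) A.pos⟩
  one_smul A := Pos.ext (by change 1 * A.val * 1ᵀ = A.val; simp)
  mul_smul g h A := Pos.ext (by
    change (g.val * h.val) * A.val * (g.val * h.val)ᵀ = g.val * (h.val * A.val * h.valᵀ) * g.valᵀ
    simp [Matrix.mul_assoc])

/-- The identity matrix. -/
def base (n : ℕ) : Pos n := ⟨1, PosDef.one⟩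

/-- The symmetric space of `G`: the orbit of the identity matrix. -/
abbrev SymSp (G : Subgroup (GL (Fin n) ℝ)) : Type := MulAction.orbit G (base n)

/-- A closed subgroup that is stable under transposition and under positive square roots. -/
structure IsReductive (G : Subgroup (GL (Fin n) ℝ)) : Prop where
  closed : IsClosed (G : Set (GL (Fin n) ℝ))
  transp : ∀ g ∈ G, ∃ h ∈ G, h.val = g.valᵀ
  root : ∀ p : GL (Fin n) ℝ, p.val.PosDef → p * p ∈ G → p ∈ G

end Pool.Agent.Lib.PD
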