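import Pool.Agent.Lib.PD.Defs
import Pool.Agent.Lib.SD.TOP
import Pool.Agent.Lib.SD.CATDefs

/-! Geometry of the symmetric space of a reductive subgroup. -/

noncomputable section

open Matrix Finset Metric

namespace Pool.Agent.Lib.PD

open Pool.Agent.Lib.SD

variable {n : ℕ}

lemma gl_unit (g : GL (Fin n) ℝ) : IsUnit g.val.det := (isUnit_iff_isUnit_det _).1 g.isUnit

lemma dist_def (A B : Pos n) : dist A B = pd A.val B.val := rfl

lemma smul_val (g : GL (Fin n) ℝ) (A : Pos n) : (g • A).val = g.val * A.val * g.valᵀ := rfl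

lemma smul_base (g : GL (Fin n) ℝ) : (g • base n).val = g.val * g.valᵀ := by
  rw [smul_val, base, Matrix.mul_one]

instance : IsIsometricSMul (GL (Fin n) ℝ) (Pos n) :=
  ⟨fun g => Isometry.of_dist_eq fun A B => pd_cg (gl_unit g) A.val B.val⟩

lemma exists_smul (A : Pos n) : ∃ g : GL (Fin n) ℝ, A = g • base n := by
  obtain ⟨g, h1, h2⟩ := root A.pos
  exact ⟨nonsingInvUnit g h1, Pos.ext (by rw [smul_base]; exact h2)⟩

lemma ent_le {g : GL (Fin n) ℝ} {r : ℝ} (h : dist (base n) (g • base n) ≤ r) (i j : Fin n) :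
    ‖g.val i j‖ ≤ Real.exp (r / 2) := by
  obtain ⟨U, x, h1, h2⟩ := spec (g • base n).pos
  rw [dist_def, h2] at h
  change pd 1 _ ≤ r at h
  rw [pd_one_orth h1] at h
  have hx : ∀ k, x k ≤ r := fun k => (le_abs_self _).trans ((Real.abs_le_sqrt
    (single_le_sum (f := fun i => x i ^ 2) (fun _ _ => sq_nonneg _) (mem_univ k))).trans h)
  rw [smul_base] at h2
  have e := congrFun (congrFun h2 i) i
  have e1 := congrFun (congrFun h1 i) i
  rw [mul_apply, one_apply_eq] at e1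
  rw [mul_apply, mul_apply] at e
  have b1 : g.val i j * g.val i j ≤ ∑ k, g.val i k * g.valᵀ k i :=
    single_le_sum (f := fun k => g.val i k * g.valᵀ k i) (fun _ _ => mul_self_nonneg _) (mem_univ j)
  have b2 : ∑ k, (U * ex x) i k * Uᵀ k i ≤ ∑ k, Real.exp r * (U i k * Uᵀ k i) :=
    sum_le_sum fun k _ => by
      rw [ex, mul_diagonal, transpose_apply]
      nlinarith [Real.exp_le_exp.2 (hx k), mul_self_nonneg (U i k)]
  rw [← mul_sum, e1, mul_one] at b2
  rw [Real.norm_eq_abs]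
  refine abs_le_of_sq_le_sq ?_ (Real.exp_pos _).le
  rw [← Real.exp_nat_mul, show ((2 : ℕ) : ℝ) * (r / 2) = r by push_cast; ring]
  nlinarith

lemma dist_inv (g : GL (Fin n) ℝ) :
    dist (base n) (g⁻¹ • base n) = dist (base n) (g • base n) := by
  rw [← dist_smul g, smul_inv_smul, dist_comm]

lemma kc_of_dist {g : GL (Fin n) ℝ} {r : ℝ} (h : dist (base n) (g • base n) ≤ r) :
    Kc (Real.exp (r / 2)) g :=
  ⟨ent_le h, ent_le ((dist_inv g).trans_le h)⟩

lemma tr_le {g : Mt n} {C : ℝ} (h : ∀ i j, ‖g i j‖ ≤ C) : trace (g * gᵀ) ≤ (n * C) ^ 2 := by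
  rw [trace]
  calc ∑ i, (g * gᵀ).diag i ≤ ∑ _i : Fin n, ∑ _j : Fin n, C ^ 2 := sum_le_sum fun i _ => by
        rw [diag_apply, mul_apply]
        exact sum_le_sum fun j _ => by
          have := abs_le.1 (h i j)
          rw [transpose_apply]; nlinarith
    _ = (n * C) ^ 2 := by simp; ring

lemma dist_of_kc {g : GL (Fin n) ℝ} {C : ℝ} (h : Kc C g) :
    dist (base n) (g • base n) ≤ 2 * (n * |C|) := by
  have h1 := pd_sq_le_tt (base n).pos (g • base n).pos
  rw [smul_base, base, tt, inv_one, Matrix.one_mul, Matrix.mul_one, Matrix.mul_inv_rev,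
    trace_mul_comm _ g.val⁻¹, ← transpose_nonsing_inv, ← coe_units_inv] at h1
  have h2 := tr_le h.1
  have h3 := tr_le h.2
  refine (abs_le_of_sq_le_sq' ?_ (by positivity)).2
  rw [dist_def, smul_base, base, mul_pow, mul_pow, sq_abs, ← mul_pow]
  nlinarith [sq_nonneg (n * C), (Nat.cast_nonneg n : (0 : ℝ) ≤ n)]

lemma cont_orbit : Continuous fun g : GL (Fin n) ℝ => g • base n := by
  refine continuous_iff_continuousAt.2 fun h => ?_
  rw [ContinuousAt, tendsto_iff_dist_tendsto_zero]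
  have hv : Continuous fun g : GL (Fin n) ℝ => g.val := Units.continuous_val
  have hi : Continuous fun g : GL (Fin n) ℝ => g.val⁻¹ := by
    simpa only [coe_units_inv] using Units.continuous_coe_inv (M := Mt n)
  have hc : Continuous fun g : GL (Fin n) ℝ => √(tt (g • base n).val (h • base n).val) := by
    simp only [smul_base, tt, Matrix.mul_inv_rev, ← transpose_nonsing_inv]
    refine Continuous.sqrt (Continuous.sub (Continuous.add ?_ ?_) continuous_const)
    · exact ((hi.matrix_transpose.matrix_mul hi).matrix_mul continuous_const).matrix_trace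
    · exact (continuous_const.matrix_mul (hv.matrix_mul hv.matrix_transpose)).matrix_trace
  have := hc.tendsto h
  rw [tt_self (h • base n).pos, Real.sqrt_zero] at this
  exact squeeze_zero (fun _ => dist_nonneg)
    (fun g => Real.le_sqrt_of_sq_le (pd_sq_le_tt (g • base n).pos (h • base n).pos)) this

/-- The one-parameter group through a positive definite matrix. -/
def qq {U : Mt n} (hU : U * Uᵀ = 1) (x : Fin n → ℝ) (t : ℝ) : GL (Fin n) ℝ where
  val := U * ex (t • x) * Uᵀ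
  inv := U * ex (-(t • x)) * Uᵀ
  val_inv := by
    rw [← orth_inv hU, mul_nonsing_inv _ (cg_pos (orth_unit hU) (ex_pos _)).det_pos.ne'.isUnit]
  inv_val := by
    rw [← orth_inv hU, nonsing_inv_mul _ (cg_pos (orth_unit hU) (ex_pos _)).det_pos.ne'.isUnit]

lemma qq_add {U : Mt n} (hU : U * Uᵀ = 1) (x : Fin n → ℝ) (s t : ℝ) :
    qq hU x (s + t) = qq hU x s * qq hU x t := Units.ext (by
  change U * ex ((s + t) • x) * Uᵀ = U * ex (s • x) * Uᵀ * (U * ex (t • x) * Uᵀ)
  rw [add_smul, ← ex_mul]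
  simp only [Matrix.mul_assoc]
  rw [← Matrix.mul_assoc Uᵀ U, orth_comm hU, Matrix.one_mul])

lemma qq_zero {U : Mt n} (hU : U * Uᵀ = 1) (x : Fin n → ℝ) : qq hU x 0 = 1 := Units.ext (by
  change U * ex ((0 : ℝ) • x) * Uᵀ = 1
  rw [zero_smul, ex_zero, Matrix.mul_one, hU])

lemma qq_T {U : Mt n} (hU : U * Uᵀ = 1) (x : Fin n → ℝ) (t : ℝ) :
    (qq hU x t).valᵀ = (qq hU x t).val := sym_T U _

lemma qq_pos {U : Mt n} (hU : U * Uᵀ = 1) (x : Fin n → ℝ) (t : ℝ) : (qq hU x t).val.PosDef :=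
  cg_pos (orth_unit hU) (ex_pos _)

lemma cont_ex (x : Fin n → ℝ) : Continuous fun t : ℝ => ex (t • x) :=
  Continuous.matrix_diagonal (continuous_pi fun i => by simp only [Pi.smul_apply]; fun_prop)

lemma qq_cont {U : Mt n} (hU : U * Uᵀ = 1) (x : Fin n → ℝ) : Continuous (qq hU x) := by
  refine Units.continuous_iff.2 ⟨?_, ?_⟩
  · exact (continuous_const.matrix_mul (cont_ex x)).matrix_mul continuous_const
  · change Continuous fun t : ℝ => U * ex (-(t • x)) * Uᵀ
    simp only [← smul_neg]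
    exact (continuous_const.matrix_mul (cont_ex _)).matrix_mul continuous_const

variable {G : Subgroup (GL (Fin n) ℝ)}

lemma qq_mem (hG : IsReductive G) {U : Mt n} (hU : U * Uᵀ = 1) (x : Fin n → ℝ)
    (h : qq hU x 1 ∈ G) (t : ℝ) : qq hU x t ∈ G := by
  let S : AddSubgroup ℝ :=
    { carrier := qq hU x ⁻¹' G
      add_mem' := fun {a b} ha hb => by
        change qq hU x (a + b) ∈ G
        rw [qq_add]; exact G.mul_mem ha hb
      zero_mem' := by
        change qq hU x 0 ∈ G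
        rw [qq_zero]; exact G.one_mem
      neg_mem' := fun {a} ha => by
        change qq hU x (-a) ∈ G
        rw [eq_inv_of_mul_eq_one_left (show qq hU x (-a) * qq hU x a = 1 by
          rw [← qq_add, neg_add_cancel, qq_zero])]
        exact G.inv_mem ha }
  have h2 : ∀ k : ℕ, ((1 : ℝ) / 2) ^ k ∈ S := fun k => by
    induction k with
    | zero => rw [pow_zero]; exact h
    | succ k ih =>
      refine hG.root _ (qq_pos hU x _) ?_
      rw [← qq_add, show ((1 : ℝ) / 2) ^ (k + 1) + (1 / 2) ^ (k + 1) = (1 / 2) ^ k by ring]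
      exact ih
  have h3 : Dense (S : Set ℝ) := S.dense_of_not_isolated_zero fun ε hε => by
    obtain ⟨k, hk⟩ := exists_pow_lt_of_lt_one hε (show (1 : ℝ) / 2 < 1 by norm_num)
    exact ⟨_, h2 k, by positivity, hk⟩
  have h4 : IsClosed (S : Set ℝ) := hG.closed.preimage (qq_cont hU x)
  have h5 : t ∈ (S : Set ℝ) := by rw [← h4.closure_eq]; exact h3 t
  exact h5

/-- Polar decomposition in a reductive group. -/
lemma polar (hG : IsReductive G) {g : GL (Fin n) ℝ} (hg : g ∈ G) : ∃ (U : Mt n) (hU : U * Uᵀ = 1)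
    (x : Fin n → ℝ), g.val * g.valᵀ = U * ex x * Uᵀ ∧ ∀ t, qq hU x t ∈ G := by
  obtain ⟨U, x, h1, h2⟩ := spec (g • base n).pos
  rw [smul_base] at h2
  obtain ⟨h, h3, h4⟩ := hG.transp g hg
  refine ⟨U, h1, x, h2, qq_mem hG h1 x ?_⟩
  have : qq h1 x 1 = g * h := Units.ext (by
    change U * ex ((1 : ℝ) • x) * Uᵀ = g.val * h.val
    rw [one_smul, h4, h2])
  rw [this]; exact G.mul_mem hg h3

/-- The base point of the symmetric space. -/
def org (G : Subgroup (GL (Fin n) ℝ)) : SymSp G := ⟨base n, MulAction.mem_orbit_self _⟩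

lemma coe_smul_org (g : G) : (g • org G).val = g.val • base n := rfl

lemma exists_org (z : SymSp G) : ∃ g : G, z = g • org G := by
  obtain ⟨_, g, rfl⟩ := z
  exact ⟨g, rfl⟩

instance : IsIsometricSMul G (SymSp G) :=
  ⟨fun g => Isometry.of_dist_eq fun A B => dist_smul g.val A.val B.val⟩

theorem properSpace (hG : IsClosed (G : Set (GL (Fin n) ℝ))) : ProperSpace (SymSp G) := by
  refine .of_seq_closedBall (l := Filter.atTop) (x := org G) (r := fun r : ℝ => r) Filter.tendsto_id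
    (Filter.Eventually.of_forall fun r => ?_)
  have h1 : IsCompact ((↑) ⁻¹' {g : GL (Fin n) ℝ | Kc (Real.exp (r / 2)) g} : Set G) :=
    hG.isClosedEmbedding_subtypeVal.isCompact_preimage (TOP.isCompact_kc _)
  have h2 : Continuous fun g : G => g • org G :=
    (cont_orbit.comp continuous_subtype_val).subtype_mk _
  refine (h1.image h2).of_isClosed_subset isClosed_closedBall fun z hz => ?_
  obtain ⟨g, rfl⟩ := exists_org z
  exact ⟨g, kc_of_dist (mem_closedBall'.1 hz), rfl⟩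

/-- The comparison inequality of non-positive curvature, for every ratio. -/
theorem cn_ratio (hG : IsReductive G) (a b : SymSp G) {t : ℝ} (h0 : 0 ≤ t) (h1 : t ≤ 1) :
    ∃ m : SymSp G, ∀ p : SymSp G,
      dist p m ^ 2 ≤ (1 - t) * dist p a ^ 2 + t * dist p b ^ 2 - t * (1 - t) * dist a b ^ 2 := by
  obtain ⟨g, rfl⟩ := exists_org a
  obtain ⟨h, rfl⟩ := exists_org b
  obtain ⟨U, hU, x, h2, h3⟩ := polar hG (g⁻¹ * h).2
  refine ⟨(g * ⟨_, h3 (t / 2)⟩) • org G, fun p => ?_⟩
  have hu : IsUnit (g.val.val * U).det := by rw [det_mul]; exact (gl_unit _).mul (orth_unit hU)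
  have e0 : (g • org G).val.val = g.val.val * U * ex 0 * (g.val.val * U)ᵀ := by
    rw [coe_smul_org, smul_base, ex_zero, Matrix.mul_one, transpose_mul, Matrix.mul_assoc,
      ← Matrix.mul_assoc U, hU, Matrix.one_mul]
  have e : ∀ (k : G) (y : Fin n → ℝ), k.val.val * k.val.valᵀ = U * ex y * Uᵀ →
      ((g * k) • org G).val.val = g.val.val * U * ex y * (g.val.val * U)ᵀ := fun k y hk => by
    rw [coe_smul_org, Subgroup.coe_mul, mul_smul, smul_val, smul_base, hk, transpose_mul]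
    simp only [Matrix.mul_assoc]
  have e1 := e _ x h2
  rw [mul_inv_cancel_left] at e1
  have e2 := e ⟨_, h3 (t / 2)⟩ (t • x) (by
    change (qq hU x (t / 2)).val * (qq hU x (t / 2)).valᵀ = _
    rw [qq_T, ← Units.val_mul, ← qq_add, add_halves]; rfl)
  have := cn_geo hu p.val.pos x h0 h1
  rw [← e0, ← e1, ← e2] at this
  exact this

theorem hasCN (hG : IsReductive G) : HasCNMidpoints (SymSp G) := fun a b => by
  obtain ⟨m, hm⟩ := cn_ratio hG a b (t := 1 / 2) (by norm_num) (by norm_num)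
  exact ⟨m, fun p => by linarith [hm p]⟩

lemma pack {E : Type} [NormedAddCommGroup E] [NormedSpace ℝ E] [ProperSpace E] (c : ℝ) :
    ∃ M : ℕ, ∀ ε : ℝ, 0 < ε → ∀ {ι : Type} (s : Finset ι) (f : ι → E), (∀ i ∈ s, ‖f i‖ ≤ c * ε) →
      (∀ i ∈ s, ∀ j ∈ s, i ≠ j → ε ≤ ‖f i - f j‖) → s.card ≤ M := by
  obtain ⟨T, h1, h2⟩ := totallyBounded_iff.1 (isCompact_closedBall (0 : E) c).totallyBounded
    (1 / 2) (by norm_num)
  refine ⟨h1.toFinset.card, fun ε hε ι s f h3 h4 => ?_⟩
  have h5 : ∀ i, ∃ y, i ∈ s → y ∈ T ∧ dist (ε⁻¹ • f i) y < 1 / 2 := fun i => by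
    by_cases hi : i ∈ s
    · have : ε⁻¹ • f i ∈ closedBall (0 : E) c := by
        rw [mem_closedBall_zero_iff, norm_smul, Real.norm_eq_abs, abs_of_pos (inv_pos.2 hε),
          inv_mul_le_iff₀ hε, mul_comm]
        exact h3 i hi
      simpa [hi] using h2 this
    · exact ⟨0, fun h => absurd h hi⟩
  choose y hy using h5
  refine card_le_card_of_injOn y (fun i hi => by simpa using (hy i hi).1) fun i hi j hj h => ?_
  by_contra hne
  have a := dist_triangle_right (ε⁻¹ • f i) (ε⁻¹ • f j) (y j)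
  have b := (hy i hi).2
  have d := (hy j hj).2
  rw [h] at b
  rw [dist_eq_norm, ← smul_sub, norm_smul, Real.norm_eq_abs, abs_of_pos (inv_pos.2 hε)] at a
  have := (le_inv_mul_iff₀ hε).2 ((mul_one ε).trans_le (h4 i hi j hj hne))
  linarith

/-- Local doubling. -/
theorem pack_pos (n : ℕ) (c : ℝ) : ∃ M : ℕ, ∀ (z : Pos n) (ε : ℝ), 0 < ε → ε ≤ 1 →
    ∀ {ι : Type} (s : Finset ι) (f : ι → Pos n), (∀ i ∈ s, dist (f i) z ≤ c * ε) →
      (∀ i ∈ s, ∀ j ∈ s, i ≠ j → ε ≤ dist (f i) (f j)) → s.card ≤ M := by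
  obtain ⟨M, hM⟩ := pack (E := EuclideanSpace ℝ (Fin n × Fin n)) (|c| * Real.exp (|c| ^ 2))
  refine ⟨M, fun z ε h0 h1 ι s f h2 h3 => ?_⟩
  obtain ⟨g, rfl⟩ := exists_smul z
  have e0 := Real.exp_pos (|c| ^ 2)
  have b : ∀ i ∈ s, pd 1 (g⁻¹ • f i).val ≤ |c| * ε := fun i hi => by
    change dist (base n) (g⁻¹ • f i) ≤ _
    rw [← dist_smul g, smul_inv_smul, dist_comm]
    exact (h2 i hi).trans (mul_le_mul_of_nonneg_right (le_abs_self c) h0.le)
  have b' : ∀ i ∈ s, pd 1 (g⁻¹ • f i).val ≤ |c| := fun i hi =>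
    (b i hi).trans (mul_le_of_le_one_right (abs_nonneg c) h1)
  refine hM (ε / Real.exp (|c| ^ 2)) (by positivity) s (fun i => lg (g⁻¹ • f i).val)
    (fun i hi => ?_) fun i hi j hj hij => ?_
  · rw [← pd_one (g⁻¹ • f i).pos]
    refine (b i hi).trans_eq ?_
    field_simp
  · rw [div_le_iff₀' e0]
    refine (h3 i hi j hj hij).trans ?_
    rw [← dist_smul g⁻¹]
    exact pd_le_lg (g⁻¹ • f i).pos (g⁻¹ • f j).pos (b' i hi) (b' j hj)

theorem pack_sym (G : Subgroup (GL (Fin n) ℝ)) (c : ℝ) : ∃ M : ℕ, ∀ (z : SymSp G) (ε : ℝ), 0 < ε →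
    ε ≤ 1 → ∀ s : Finset (SymSp G), (∀ x ∈ s, dist x z ≤ c * ε) →
      (∀ x ∈ s, ∀ y ∈ s, x ≠ y → ε ≤ dist x y) → s.card ≤ M := by
  obtain ⟨M, hM⟩ := pack_pos n c
  exact ⟨M, fun z ε h0 h1 s h2 h3 => hM z.val ε h0 h1 s Subtype.val h2 h3⟩

end Pool.Agent.Lib.PD
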