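import Pool.Agent.Lib.PD.Geo
import Pool.Agent.Lib.SD.All

/-! Cocompact lattices of reductive groups act geometrically on the symmetric space and have
subexponential decay. -/

noncomputable section

open Matrix Finset Metric

namespace Pool.Agent.Lib.PD

open Pool.Agent.Lib.SD

variable {n : ℕ} {G : Subgroup (GL (Fin n) ℝ)} {Γ : Type} [Group Γ]

lemma fn_cob (ρ : Γ →* G) [Finite ρ.ker] [DiscreteTopology ρ.range] [CompactSpace (G ⧸ ρ.range)] :
    Fn (G.subtype.comp ρ) ∧ ∃ C : ℝ, ∀ h : G, ∃ γ : Γ, Kc C ((ρ γ).val⁻¹ * h.val) := by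
  obtain ⟨h1, C, h2⟩ := TOP.lat (φ := G.subtype) Topology.IsEmbedding.subtypeVal ρ.range
  refine ⟨fun D => ?_, C, fun h => ?_⟩
  · refine ((h1 D).preimage' (f := ρ.rangeRestrict) fun b _ => ?_).subset fun γ hγ => hγ
    obtain ⟨_, a, rfl⟩ := b
    refine (Set.finite_range fun k : ρ.ker => a * k.val).subset fun c hc => ?_
    have : ρ c = ρ a := congrArg Subtype.val hc
    exact ⟨⟨a⁻¹ * c, by simp [MonoidHom.mem_ker, this]⟩, by simp⟩
  · obtain ⟨⟨_, γ, rfl⟩, h3⟩ := h2 h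
    exact ⟨γ, h3⟩

lemma kc_orth {U : GL (Fin n) ℝ} (hU : U.val * U.valᵀ = 1) : Kc 1 U := by
  have h : U • base n = base n := Pos.ext (by rw [smul_base]; exact hU)
  simpa using kc_of_dist (g := U) (r := 0) (by rw [h, dist_self])

lemma mid (hG : IsReductive G) (ρ : Γ →* G)
    (h : ∃ C : ℝ, ∀ h : G, ∃ γ : Γ, Kc C ((ρ γ).val⁻¹ * h.val)) : Mid (G.subtype.comp ρ) := by
  obtain ⟨C, hC⟩ := h
  refine ⟨max 1 (n * (C * 1)), fun γ => ?_⟩
  obtain ⟨U, hU, x, h2, h3⟩ := polar hG (ρ γ).2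
  obtain ⟨γ', h4⟩ := hC ⟨_, h3 (1 / 4)⟩
  set u : GL (Fin n) ℝ := nonsingInvUnit U (orth_unit hU) with hu
  set b : GL (Fin n) ℝ := nonsingInvUnit (ex ((1 / 4 : ℝ) • x)) (ex_unit _) with hb
  have hu1 : Kc 1 u := kc_orth hU
  have e : u * b = qq hU x (1 / 4) * u := Units.ext (by
    change U * ex _ = U * ex _ * Uᵀ * U
    rw [Matrix.mul_assoc _ Uᵀ, orth_comm hU, Matrix.mul_one])
  refine ⟨u, b, (u * b * b)⁻¹ * (ρ γ).val, γ', hu1.mono (le_max_left _ _),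
    (kc_orth ?_).mono (le_max_left _ _), isDiag_diagonal _, (mul_inv_cancel_left _ _).symm, ?_⟩
  · rw [← smul_base, mul_smul, show (ρ γ).val • base n = (u * b * b) • base n from ?_,
      inv_smul_smul]
    · rfl
    · refine Pos.ext ?_
      rw [smul_base, smul_base, h2]
      change _ = U * ex _ * ex _ * (U * ex _ * ex _)ᵀ
      simp only [transpose_mul, ex_T, Matrix.mul_assoc]
      simp only [← Matrix.mul_assoc (ex _) (ex _), ex_mul, ← add_smul]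
      norm_num
  · rw [e, ← mul_assoc _ _ u]
    exact (Kc.mul h4 hu1).mono (le_max_right _ _)

lemma decay_mono {B B' : ℝ → Set Γ} (h : SubexpDecay B) (hB : ∀ r, 0 ≤ r → B' r ⊆ B r) :
    SubexpDecay B' := fun ε hε => by
  obtain ⟨C, hC⟩ := h ε hε
  exact ⟨C, fun r hr f g hf => hC r hr f g fun x hx => hB r hr (hf x hx)⟩

variable [MulAction Γ (SymSp G)] {ρ : Γ →* G}

theorem isIso (hρ : ∀ (γ : Γ) (x : SymSp G), γ • x = ρ γ • x) : IsIsometricSMul Γ (SymSp G) :=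
  ⟨fun γ => Isometry.of_dist_eq fun A B => by rw [hρ, hρ, dist_smul]⟩

variable [Finite ρ.ker] [DiscreteTopology ρ.range] [CompactSpace (G ⧸ ρ.range)]

theorem proper (hρ : ∀ (γ : Γ) (x : SymSp G), γ • x = ρ γ • x) (R : ℝ) :
    {g : Γ | dist (org G) (g • org G) ≤ R}.Finite :=
  ((fn_cob ρ).1 (Real.exp (R / 2))).subset fun g hg => by
    rw [Set.mem_ofPred_eq, hρ] at hg
    exact kc_of_dist hg

theorem cobounded (hρ : ∀ (γ : Γ) (x : SymSp G), γ • x = ρ γ • x) :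
    ∃ D : ℝ, ∀ x : SymSp G, ∃ g : Γ, dist x (g • org G) ≤ D := by
  obtain ⟨C, hC⟩ := (fn_cob ρ).2
  refine ⟨2 * (n * |C|), fun x => ?_⟩
  obtain ⟨h, rfl⟩ := exists_org x
  obtain ⟨γ, h1⟩ := hC h
  refine ⟨γ, ?_⟩
  rw [hρ, ← dist_smul (ρ γ)⁻¹, inv_smul_smul, dist_comm, ← mul_smul]
  exact dist_of_kc h1

omit [MulAction Γ (SymSp G)] in
theorem decay_word (hG : IsReductive G) (ρ : Γ →* G) [Finite ρ.ker] [DiscreteTopology ρ.range]
    [CompactSpace (G ⧸ ρ.range)] (S : Finset Γ) : SubexpDecay (wordBall S) :=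
  TOP.word _ (SD.main _ (fn_cob ρ).1 (mid hG ρ (fn_cob ρ).2)) S

theorem decay_ball (hG : IsReductive G) (hρ : ∀ (γ : Γ) (x : SymSp G), γ • x = ρ γ • x) :
    SubexpDecay fun r => {g : Γ | dist (org G) (g • org G) ≤ r} :=
  decay_mono (SD.main _ (fn_cob ρ).1 (mid hG ρ (fn_cob ρ).2)) fun r hr g hg => by
    rw [Set.mem_ofPred_eq, hρ] at hg
    exact (kc_of_dist hg).mono (Real.exp_le_exp.2 (by linarith))

end Pool.Agent.Lib.PD
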