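import Mathlib

/-! The trace metric on positive definite matrices: matrix computations. -/

noncomputable section

open Matrix Finset

namespace Pool.Agent.Lib.PD

variable {n : ℕ}

/-- Real square matrices. -/
abbrev Mt (n : ℕ) : Type := Matrix (Fin n) (Fin n) ℝ

/-- The square root of the sum of the squared logarithms of the eigenvalues of `A⁻¹ B`. -/
def pd (A B : Mt n) : ℝ := √(((A⁻¹ * B).charpoly.roots.map fun t => Real.log t ^ 2).sum)

/-- The exponential of a diagonal matrix. -/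
def ex (x : Fin n → ℝ) : Mt n := diagonal fun i => Real.exp (x i)

lemma ex_mul (x y : Fin n → ℝ) : ex x * ex y = ex (x + y) := by
  simp [ex, diagonal_mul_diagonal, Real.exp_add]

lemma ex_zero : ex (0 : Fin n → ℝ) = 1 := by simp [ex]

lemma ex_T (x : Fin n → ℝ) : (ex x)ᵀ = ex x := diagonal_transpose _

lemma ex_inv (x : Fin n → ℝ) : (ex x)⁻¹ = ex (-x) :=
  inv_eq_right_inv (by rw [ex_mul, add_neg_cancel, ex_zero])

lemma ex_unit (x : Fin n → ℝ) : IsUnit (ex x).det :=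
  isUnit_det_of_right_inverse (B := ex (-x)) (by rw [ex_mul, add_neg_cancel, ex_zero])

lemma ex_pos (x : Fin n → ℝ) : (ex x).PosDef := PosDef.diagonal fun _ => Real.exp_pos _

lemma cg_pos {g A : Mt n} (hg : IsUnit g.det) (hA : A.PosDef) : (g * A * gᵀ).PosDef := by
  have := hA.mul_mul_conjTranspose_same (B := g)
    (vecMul_injective_iff_isUnit.2 ((isUnit_iff_isUnit_det g).2 hg))
  simpa using this

lemma cg_inv_mul {g : Mt n} (hg : IsUnit g.det) (A B : Mt n) :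
    (g * A * gᵀ)⁻¹ * (g * B * gᵀ) = gᵀ⁻¹ * (A⁻¹ * B) * gᵀ := by
  rw [Matrix.mul_inv_rev, Matrix.mul_inv_rev]
  simp only [Matrix.mul_assoc]
  rw [nonsing_inv_mul_cancel_left _ _ hg]

lemma unit_T {g : Mt n} (hg : IsUnit g.det) : IsUnit gᵀ.det := by rwa [det_transpose]

lemma pd_cg {g : Mt n} (hg : IsUnit g.det) (A B : Mt n) :
    pd (g * A * gᵀ) (g * B * gᵀ) = pd A B := by
  rw [pd, cg_inv_mul hg, charpoly_mul_comm, mul_nonsing_inv_cancel_left _ _ (unit_T hg), pd]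

lemma pd_ex (x y : Fin n → ℝ) : pd (ex x) (ex y) = √(∑ i, (y i - x i) ^ 2) := by
  rw [pd, ex_inv, ex_mul, ex, charpoly_diagonal, Polynomial.roots_prod]
  · simp only [Polynomial.roots_X_sub_C, Multiset.bind_singleton, Multiset.map_map,
      Function.comp_def, Real.log_exp, Pi.add_apply, Pi.neg_apply, neg_add_eq_sub]
    rfl
  · simp [Finset.prod_ne_zero_iff, Polynomial.X_sub_C_ne_zero]

lemma spec {A : Mt n} (hA : A.PosDef) : ∃ (U : Mt n) (x : Fin n → ℝ), U * Uᵀ = 1 ∧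
    A = U * ex x * Uᵀ := by
  refine ⟨hA.1.eigenvectorUnitary, fun i => Real.log (hA.1.eigenvalues i), ?_, ?_⟩
  · simpa [star_eq_conjTranspose] using Unitary.coe_mul_star_self hA.1.eigenvectorUnitary
  · have h : ex (fun i => Real.log (hA.1.eigenvalues i)) =
        diagonal (RCLike.ofReal ∘ hA.1.eigenvalues) := by
      rw [ex]; congr 1; funext i; simp [Real.exp_log (hA.eigenvalues_pos i)]
    rw [h]
    simpa [star_eq_conjTranspose] using hA.1.spectral_theorem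

lemma orth_unit {U : Mt n} (h : U * Uᵀ = 1) : IsUnit U.det := isUnit_det_of_right_inverse h

lemma orth_comm {U : Mt n} (h : U * Uᵀ = 1) : Uᵀ * U = 1 := mul_eq_one_comm.1 h

lemma root {A : Mt n} (hA : A.PosDef) : ∃ g : Mt n, IsUnit g.det ∧ A = g * gᵀ := by
  obtain ⟨U, x, h1, h2⟩ := spec hA
  refine ⟨U * ex ((1 / 2 : ℝ) • x), ?_, ?_⟩
  · rw [det_mul]; exact (orth_unit h1).mul (ex_unit _)
  · rw [transpose_mul, ex_T, Matrix.mul_assoc, ← Matrix.mul_assoc (ex _), ex_mul, ← add_smul, h2,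
      Matrix.mul_assoc]
    norm_num

lemma cg_cancel {g : Mt n} (hg : IsUnit g.det) (B : Mt n) : g * (g⁻¹ * B * g⁻¹ᵀ) * gᵀ = B := by
  rw [transpose_nonsing_inv, Matrix.mul_assoc, nonsing_inv_mul_cancel_right _ _ (unit_T hg),
    mul_nonsing_inv_cancel_left _ _ hg]

lemma unit_inv {g : Mt n} (hg : IsUnit g.det) : IsUnit g⁻¹.det := isUnit_nonsing_inv_det _ hg

/-- Simultaneous diagonalisation. -/
lemma frame {A B : Mt n} (hA : A.PosDef) (hB : B.PosDef) : ∃ (g : Mt n) (x : Fin n → ℝ),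
    IsUnit g.det ∧ A = g * ex 0 * gᵀ ∧ B = g * ex x * gᵀ := by
  obtain ⟨g, h1, h2⟩ := root hA
  obtain ⟨U, x, h3, h4⟩ := spec (cg_pos (unit_inv h1) hB)
  refine ⟨g * U, x, ?_, ?_, ?_⟩
  · rw [det_mul]; exact h1.mul (orth_unit h3)
  · rw [ex_zero, Matrix.mul_one, transpose_mul, Matrix.mul_assoc, ← Matrix.mul_assoc U, h3,
      Matrix.one_mul, h2]
  · rw [← cg_cancel h1 B, h4, transpose_mul]
    simp only [Matrix.mul_assoc]

lemma pd_nonneg (A B : Mt n) : 0 ≤ pd A B := Real.sqrt_nonneg _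

lemma pd_self {A : Mt n} (hA : A.PosDef) : pd A A = 0 := by
  obtain ⟨g, x, h1, h2, -⟩ := frame hA hA
  rw [h2, pd_cg h1, pd_ex]; simp

lemma pd_comm {A B : Mt n} (hA : A.PosDef) (hB : B.PosDef) : pd A B = pd B A := by
  obtain ⟨g, x, h1, h2, h3⟩ := frame hA hB
  rw [h2, h3, pd_cg h1, pd_cg h1, pd_ex, pd_ex]; simp

lemma eq_of_pd {A B : Mt n} (hA : A.PosDef) (hB : B.PosDef) (h : pd A B = 0) : A = B := by
  obtain ⟨g, x, h1, h2, h3⟩ := frame hA hB
  rw [h2, h3, pd_cg h1, pd_ex, Real.sqrt_eq_zero (by positivity),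
    sum_eq_zero_iff_of_nonneg fun _ _ => sq_nonneg _] at h
  have : x = 0 := funext fun i => by simpa using h i (mem_univ i)
  rw [h2, h3, this]

/-! ### Mixed bases -/

lemma tr_mix (U V : Mt n) (a b : Fin n → ℝ) :
    trace (U * diagonal a * Uᵀ * (V * diagonal b * Vᵀ)) =
      ∑ i, ∑ j, a i * b j * (Uᵀ * V) i j ^ 2 := by
  have h : trace (U * diagonal a * Uᵀ * (V * diagonal b * Vᵀ)) =
      trace (diagonal a * (Uᵀ * V) * (diagonal b * (Uᵀ * V)ᵀ)) := by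
    rw [transpose_mul, transpose_transpose]
    simp only [Matrix.mul_assoc]
    rw [trace_mul_comm U]
    simp only [Matrix.mul_assoc]
  rw [h, trace]
  refine sum_congr rfl fun i _ => ?_
  rw [diag_apply, mul_apply]
  refine sum_congr rfl fun j _ => ?_
  rw [diagonal_mul, diagonal_mul, transpose_apply]; ring

/-- The symmetrised trace. -/
def tt (A B : Mt n) : ℝ := trace (A⁻¹ * B) + trace (B⁻¹ * A) - 2 * n

lemma tt_cg {g : Mt n} (hg : IsUnit g.det) (A B : Mt n) :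
    tt (g * A * gᵀ) (g * B * gᵀ) = tt A B := by
  rw [tt, cg_inv_mul hg, cg_inv_mul hg, trace_mul_comm, trace_mul_comm (_ * _) gᵀ,
    mul_nonsing_inv_cancel_left _ _ (unit_T hg), mul_nonsing_inv_cancel_left _ _ (unit_T hg), tt]

lemma tt_ex (x y : Fin n → ℝ) : tt (ex x) (ex y) = ∑ i, (2 * Real.cosh (y i - x i) - 2) := by
  rw [tt, ex_inv, ex_inv, ex_mul, ex_mul, ex, ex, trace_diagonal, trace_diagonal, ← sum_add_distrib,
    sum_sub_distrib]
  congr 1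
  · refine sum_congr rfl fun i _ => ?_
    rw [Real.cosh_eq]
    simp only [Pi.add_apply, Pi.neg_apply]
    ring_nf
  · simp [mul_comm]

lemma sq_le_cosh (s : ℝ) : s ^ 2 ≤ 2 * Real.cosh s - 2 := by
  have h1 : Real.cosh s = 2 * Real.sinh (s / 2) ^ 2 + 1 := by
    have := Real.cosh_two_mul (s / 2)
    rw [show 2 * (s / 2) = s by ring, Real.cosh_sq] at this
    linarith
  have h2 : |s / 2| ≤ |Real.sinh (s / 2)| := by
    rw [Real.abs_sinh]; exact Real.self_le_sinh_iff.2 (abs_nonneg _)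
  have := sq_le_sq.2 h2
  nlinarith

lemma cosh_le (s ρ : ℝ) (h : s ^ 2 ≤ ρ) : 2 * Real.cosh s - 2 ≤ s ^ 2 * Real.exp (ρ / 2) := by
  have h1 := Real.cosh_le_exp_half_sq s
  have h2 := Real.add_one_le_exp (-(s ^ 2 / 2))
  have h3 : Real.exp (-(s ^ 2 / 2)) * Real.exp (s ^ 2 / 2) = 1 := by
    rw [← Real.exp_add]; simp
  have h4 : Real.exp (s ^ 2 / 2) ≤ Real.exp (ρ / 2) := Real.exp_le_exp.2 (by linarith)
  have h5 := Real.exp_pos (s ^ 2 / 2)
  have h6 := mul_le_mul_of_nonneg_right h2 h5.le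
  have h7 := mul_le_mul_of_nonneg_left h4 (sq_nonneg s)
  nlinarith

lemma pd_sq_le_tt {A B : Mt n} (hA : A.PosDef) (hB : B.PosDef) : pd A B ^ 2 ≤ tt A B := by
  obtain ⟨g, x, h1, h2, h3⟩ := frame hA hB
  rw [h2, h3, pd_cg h1, tt_cg h1, pd_ex, tt_ex, Real.sq_sqrt (by positivity)]
  exact sum_le_sum fun i _ => sq_le_cosh _

lemma tt_le_pd {A B : Mt n} (hA : A.PosDef) (hB : B.PosDef) :
    tt A B ≤ pd A B ^ 2 * Real.exp (pd A B ^ 2 / 2) := by
  obtain ⟨g, x, h1, h2, h3⟩ := frame hA hB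
  rw [h2, h3, pd_cg h1, tt_cg h1, pd_ex, tt_ex, Real.sq_sqrt (by positivity), sum_mul]
  exact sum_le_sum fun i _ => cosh_le _ _
    (single_le_sum (f := fun i => (x i - (0 : Fin n → ℝ) i) ^ 2) (fun _ _ => sq_nonneg _)
      (mem_univ i))

/-- Matrices as points of a Euclidean space. -/
def fr : Mt n →ₗ[ℝ] EuclideanSpace ℝ (Fin n × Fin n) where
  toFun L := WithLp.toLp 2 fun p => L p.1 p.2
  map_add' _ _ := rfl
  map_smul' _ _ := rfl

lemma fr_sq (L : Mt n) : ‖fr L‖ ^ 2 = trace (L * Lᵀ) := by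
  rw [EuclideanSpace.real_norm_sq_eq, Fintype.sum_prod_type, trace]
  refine sum_congr rfl fun i _ => ?_
  rw [diag_apply, mul_apply]
  exact sum_congr rfl fun j _ => by simp [fr, sq]

lemma orth_mul {U : Mt n} (h : U * Uᵀ = 1) (a b : Fin n → ℝ) :
    U * diagonal a * Uᵀ * (U * diagonal b * Uᵀ) = U * diagonal (a * b) * Uᵀ := by
  simp only [Matrix.mul_assoc]
  rw [← Matrix.mul_assoc Uᵀ, orth_comm h, Matrix.one_mul, ← Matrix.mul_assoc (diagonal a),
    diagonal_mul_diagonal]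
  rfl

lemma orth_one {U : Mt n} (h : U * Uᵀ = 1) : U * diagonal (fun _ => (1 : ℝ)) * Uᵀ = 1 := by
  rw [diagonal_one, Matrix.mul_one, h]

lemma sym_T (U : Mt n) (a : Fin n → ℝ) : (U * diagonal a * Uᵀ)ᵀ = U * diagonal a * Uᵀ := by
  simp [Matrix.mul_assoc]

lemma fr_mix {U V : Mt n} (hU : U * Uᵀ = 1) (hV : V * Vᵀ = 1) (x y : Fin n → ℝ) :
    ‖fr (U * diagonal x * Uᵀ) - fr (V * diagonal y * Vᵀ)‖ ^ 2 =
      ∑ i, ∑ j, (x i - y j) ^ 2 * (Uᵀ * V) i j ^ 2 := by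
  have h1 := tr_mix U V (x * x) fun _ => 1
  have h2 := tr_mix U V x y
  have h3 := tr_mix U V (fun _ => 1) (y * y)
  rw [orth_one hV, Matrix.mul_one] at h1
  rw [orth_one hU, Matrix.one_mul] at h3
  rw [← map_sub, fr_sq, transpose_sub, sym_T, sym_T, Matrix.sub_mul, Matrix.mul_sub, Matrix.mul_sub,
    trace_sub, trace_sub, trace_sub, orth_mul hU, orth_mul hV, trace_mul_comm (V * _ * _), h1, h2,
    h3]
  simp only [← sum_sub_distrib, Pi.mul_apply]
  exact sum_congr rfl fun i _ => sum_congr rfl fun j _ => by ring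

lemma orth_inv {U : Mt n} (h : U * Uᵀ = 1) (x : Fin n → ℝ) :
    (U * ex x * Uᵀ)⁻¹ = U * ex (-x) * Uᵀ := by
  refine inv_eq_right_inv ?_
  rw [ex, ex, orth_mul h, ← orth_one h]
  congr 3; funext i; simp [← Real.exp_add]

lemma tt_mix {U V : Mt n} (hU : U * Uᵀ = 1) (hV : V * Vᵀ = 1) (x y : Fin n → ℝ) :
    tt (U * ex x * Uᵀ) (V * ex y * Vᵀ) =
      ∑ i, ∑ j, (2 * Real.cosh (x i - y j) - 2) * (Uᵀ * V) i j ^ 2 := by
  have h1 := tr_mix U V (fun _ => 1) fun _ => 1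
  rw [orth_one hU, orth_one hV, Matrix.one_mul, trace_one, Fintype.card_fin] at h1
  rw [tt, orth_inv hU, orth_inv hV, trace_mul_comm (V * _ * _), ex, ex, ex, ex, tr_mix, tr_mix, h1]
  simp only [← sum_sub_distrib, ← sum_add_distrib, mul_sum]
  refine sum_congr rfl fun i _ => sum_congr rfl fun j _ => ?_
  rw [Real.cosh_eq, ← Real.exp_add, ← Real.exp_add]
  simp only [Pi.neg_apply]
  ring_nf

lemma fr_le_tt {U V : Mt n} (hU : U * Uᵀ = 1) (hV : V * Vᵀ = 1) (x y : Fin n → ℝ) :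
    ‖fr (U * diagonal x * Uᵀ) - fr (V * diagonal y * Vᵀ)‖ ^ 2 ≤
      tt (U * ex x * Uᵀ) (V * ex y * Vᵀ) := by
  rw [fr_mix hU hV, tt_mix hU hV]
  exact sum_le_sum fun i _ => sum_le_sum fun j _ =>
    mul_le_mul_of_nonneg_right (sq_le_cosh _) (sq_nonneg _)

open Classical in
/-- The logarithm of a positive definite matrix, as a Euclidean vector. -/
def lg (A : Mt n) : EuclideanSpace ℝ (Fin n × Fin n) :=
  if h : A.PosDef then fr ((spec h).choose * diagonal (spec h).choose_spec.choose *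
    (spec h).chooseᵀ) else 0

lemma lg_spec {A : Mt n} (hA : A.PosDef) : ∃ (U : Mt n) (x : Fin n → ℝ), U * Uᵀ = 1 ∧
    A = U * ex x * Uᵀ ∧ lg A = fr (U * diagonal x * Uᵀ) :=
  ⟨_, _, (spec hA).choose_spec.choose_spec.1, (spec hA).choose_spec.choose_spec.2, dif_pos hA⟩

lemma tt_self {A : Mt n} (hA : A.PosDef) : tt A A = 0 := by
  obtain ⟨g, x, h1, h2, -⟩ := frame hA hA
  rw [h2, tt_cg h1, tt_ex]; simp

lemma lg_eq {U : Mt n} (hU : U * Uᵀ = 1) (x : Fin n → ℝ) :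
    lg (U * ex x * Uᵀ) = fr (U * diagonal x * Uᵀ) := by
  have hA := cg_pos (orth_unit hU) (ex_pos x)
  obtain ⟨V, y, h1, h2, h3⟩ := lg_spec hA
  have h := fr_le_tt h1 hU y x
  rw [← h2, tt_self hA, ← h3] at h
  exact sub_eq_zero.1 (norm_eq_zero.1 (pow_eq_zero_iff two_ne_zero |>.1
    (le_antisymm h (sq_nonneg _))))

lemma lg_ex (x : Fin n → ℝ) : lg (ex x) = fr (diagonal x) := by
  simpa using lg_eq (U := (1 : Mt n)) (by simp) x

lemma lg_le_tt {A B : Mt n} (hA : A.PosDef) (hB : B.PosDef) : ‖lg A - lg B‖ ^ 2 ≤ tt A B := by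
  obtain ⟨U, x, h1, h2, h3⟩ := lg_spec hA
  obtain ⟨V, y, h4, h5, h6⟩ := lg_spec hB
  rw [h3, h6, h2, h5]; exact fr_le_tt h1 h4 x y

lemma fr_norm {U : Mt n} (hU : U * Uᵀ = 1) (x : Fin n → ℝ) :
    ‖fr (U * diagonal x * Uᵀ)‖ = √(∑ i, x i ^ 2) := by
  rw [← Real.sqrt_sq (norm_nonneg _), fr_sq, sym_T, orth_mul hU, trace_mul_comm, ← Matrix.mul_assoc,
    orth_comm hU, Matrix.one_mul, trace_diagonal]
  simp [sq]

lemma pd_one_orth {U : Mt n} (hU : U * Uᵀ = 1) (x : Fin n → ℝ) :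
    pd 1 (U * ex x * Uᵀ) = √(∑ i, x i ^ 2) := by
  have h := pd_cg (orth_unit hU) (ex 0) (ex x)
  rw [pd_ex, ex_zero, Matrix.mul_one, hU] at h
  simpa using h

lemma pd_one {A : Mt n} (hA : A.PosDef) : pd 1 A = ‖lg A‖ := by
  obtain ⟨U, x, h1, h2, h3⟩ := lg_spec hA
  rw [h3, fr_norm h1, h2, pd_one_orth h1]

lemma pd_geo {g : Mt n} (hg : IsUnit g.det) (x : Fin n → ℝ) (s t : ℝ) :
    pd (g * ex (s • x) * gᵀ) (g * ex (t • x) * gᵀ) = |t - s| * √(∑ i, x i ^ 2) := by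
  rw [pd_cg hg, pd_ex, ← Real.sqrt_sq_eq_abs, ← Real.sqrt_mul (sq_nonneg _), mul_sum]
  congr 1
  exact sum_congr rfl fun i _ => by simp only [Pi.smul_apply, smul_eq_mul]; ring

/-- The logarithm does not increase distances. -/
theorem emi {A B : Mt n} (hA : A.PosDef) (hB : B.PosDef) : ‖lg A - lg B‖ ≤ pd A B := by
  obtain ⟨g, x, h1, h2, h3⟩ := frame hA hB
  set D := √(∑ i, x i ^ 2) with hD
  have D0 : 0 ≤ D := Real.sqrt_nonneg _
  set γ : ℝ → Mt n := fun t => g * ex (t • x) * gᵀ with hγ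
  have a0 : γ 0 = A := by simp [hγ, h2]
  have a1 : γ 1 = B := by simp [hγ, h3]
  have hp : ∀ t, (γ t).PosDef := fun t => cg_pos h1 (ex_pos _)
  have hd : pd A B = D := by rw [← a0, ← a1, pd_geo h1]; simp [hD]
  have key : ∀ N : ℕ, ‖lg A - lg B‖ ≤ D * Real.exp ((1 / ((N : ℝ) + 1) * D) ^ 2 / 4) := fun N => by
    have N0 : (0 : ℝ) < N + 1 := by positivity
    have h := dist_le_range_sum_of_dist_le (f := fun k : ℕ => lg (γ (k / ((N : ℝ) + 1)))) (N + 1)
      (d := fun _ => 1 / ((N : ℝ) + 1) * D * Real.exp ((1 / ((N : ℝ) + 1) * D) ^ 2 / 4))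
      fun {k} _ => by
        have e := (lg_le_tt (hp (k / ((N : ℝ) + 1))) (hp ((k + 1 : ℕ) / ((N : ℝ) + 1)))).trans
          (tt_le_pd (hp _) (hp _))
        rw [pd_geo h1, ← hD, show ((k + 1 : ℕ) : ℝ) / ((N : ℝ) + 1) - k / ((N : ℝ) + 1) =
          1 / ((N : ℝ) + 1) by push_cast; field_simp; ring, abs_of_pos (by positivity)] at e
        rw [dist_eq_norm]
        refine abs_le_of_sq_le_sq' (e.trans_eq ?_) (by positivity) |>.2
        rw [mul_pow _ (Real.exp _), ← Real.exp_nat_mul]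
        congr 2; push_cast; ring
    rw [sum_const, card_range, nsmul_eq_mul, dist_eq_norm] at h
    push_cast at h
    rw [zero_div, div_self N0.ne', a0, a1] at h
    refine h.trans_eq ?_
    field_simp
  rw [hd]
  have hl : Filter.Tendsto (fun N : ℕ => D * Real.exp ((1 / ((N : ℝ) + 1) * D) ^ 2 / 4))
      Filter.atTop (nhds (D * Real.exp ((0 * D) ^ 2 / 4))) :=
    (Real.continuous_exp.tendsto _ |>.comp
      (((tendsto_one_div_add_atTop_nhds_zero_nat.mul_const D).pow 2).div_const 4)).const_mul D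
  simpa using ge_of_tendsto' hl key

lemma pd_triangle {A B C : Mt n} (hA : A.PosDef) (hB : B.PosDef) (hC : C.PosDef) :
    pd A C ≤ pd A B + pd B C := by
  obtain ⟨g, h1, h2⟩ := root hA
  have hB' := cg_pos (unit_inv h1) hB
  have hC' := cg_pos (unit_inv h1) hC
  have e : A = g * 1 * gᵀ := by rw [Matrix.mul_one, h2]
  rw [e, ← cg_cancel h1 B, ← cg_cancel h1 C, pd_cg h1, pd_cg h1, pd_cg h1, pd_one hB', pd_one hC']
  have := emi hB' hC'
  linarith [norm_sub_norm_le (lg (g⁻¹ * C * g⁻¹ᵀ)) (lg (g⁻¹ * B * g⁻¹ᵀ)),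
    norm_sub_rev (lg (g⁻¹ * C * g⁻¹ᵀ)) (lg (g⁻¹ * B * g⁻¹ᵀ))]

/-- The comparison inequality along the geodesic `t ↦ g exp (t x) gᵀ`. -/
theorem cn_geo {g Z : Mt n} (hg : IsUnit g.det) (hZ : Z.PosDef) (x : Fin n → ℝ) {t : ℝ}
    (h0 : 0 ≤ t) (h1 : t ≤ 1) : pd Z (g * ex (t • x) * gᵀ) ^ 2 ≤
      (1 - t) * pd Z (g * ex 0 * gᵀ) ^ 2 + t * pd Z (g * ex x * gᵀ) ^ 2 -
        t * (1 - t) * pd (g * ex 0 * gᵀ) (g * ex x * gᵀ) ^ 2 := by
  set k := g * ex ((t / 2) • x) with hk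
  have hu : IsUnit k.det := by rw [det_mul]; exact hg.mul (ex_unit _)
  have e : ∀ s : ℝ, g * ex (s • x) * gᵀ = k * ex ((s - t) • x) * kᵀ := fun s => by
    rw [hk, transpose_mul, ex_T]
    simp only [Matrix.mul_assoc]
    rw [← Matrix.mul_assoc (ex ((s - t) • x)), ← Matrix.mul_assoc (ex _) (_ * _), ex_mul, ex_mul,
      ← add_smul, ← add_smul]
    congr 4; ring
  have hW := cg_pos (unit_inv hu) hZ
  have e0 := e 0
  have e1 := e 1
  have ed := pd_geo hg x 0 1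
  rw [zero_smul] at e0 ed
  rw [one_smul] at e1 ed
  rw [ed, e t, e0, e1, ← cg_cancel hu Z, pd_cg hu, pd_cg hu, pd_cg hu, sub_self, zero_smul, ex_zero,
    pd_comm hW PosDef.one, pd_one hW]
  have b0 := emi hW (ex_pos ((0 - t) • x))
  have b1 := emi hW (ex_pos ((1 - t) • x))
  rw [lg_ex, diagonal_smul, map_smul] at b0 b1
  have hn : √(∑ i, x i ^ 2) = ‖fr (diagonal x)‖ := by
    simpa using (fr_norm (U := (1 : Mt n)) (by simp) x).symm
  rw [hn]
  set L := lg (k⁻¹ * Z * k⁻¹ᵀ)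
  set W := fr (diagonal x)
  have c0 := pow_le_pow_left₀ (norm_nonneg _) b0 2
  have c1 := pow_le_pow_left₀ (norm_nonneg _) b1 2
  rw [norm_sub_sq_real, real_inner_smul_right, norm_smul, mul_pow, Real.norm_eq_abs, sq_abs] at c0 c1
  have d0 := mul_le_mul_of_nonneg_left c0 (sub_nonneg.2 h1)
  have d1 := mul_le_mul_of_nonneg_left c1 h0
  simp only [sub_zero, abs_one, one_mul]
  nlinarith

/-- The logarithm is locally bi-Lipschitz. -/
lemma pd_le_lg {A B : Mt n} (hA : A.PosDef) (hB : B.PosDef) {r : ℝ} (ha : pd 1 A ≤ r)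
    (hb : pd 1 B ≤ r) : pd A B ≤ Real.exp (r ^ 2) * ‖lg A - lg B‖ := by
  obtain ⟨U, x, h1, h2, h3⟩ := lg_spec hA
  obtain ⟨V, y, h4, h5, h6⟩ := lg_spec hB
  have bd : ∀ {W : Mt n} (z : Fin n → ℝ), W * Wᵀ = 1 → pd 1 (W * ex z * Wᵀ) ≤ r → ∀ i,
      |z i| ≤ r := fun z hW h i => by
    rw [pd_one_orth hW] at h
    exact (Real.abs_le_sqrt (single_le_sum (f := fun i => z i ^ 2) (fun _ _ => sq_nonneg _)
      (mem_univ i))).trans h
  have hx := bd x h1 (h2 ▸ ha)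
  have hy := bd y h4 (h5 ▸ hb)
  refine (abs_le_of_sq_le_sq' ((pd_sq_le_tt hA hB).trans ?_) (by positivity)).2
  rw [mul_pow, h3, h6, fr_mix h1 h4, h2, h5, tt_mix h1 h4, mul_sum]
  refine sum_le_sum fun i _ => ?_
  rw [mul_sum]
  refine sum_le_sum fun j _ => ?_
  rw [← mul_assoc]
  refine mul_le_mul_of_nonneg_right ((cosh_le _ (4 * r ^ 2) ?_).trans_eq ?_) (sq_nonneg _)
  · have := abs_le.1 (hx i)
    have := abs_le.1 (hy j)
    nlinarith
  · rw [← Real.exp_nat_mul, mul_comm]; congr 2; push_cast; ring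

end Pool.Agent.Lib.PD
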