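import Pool.Agent.Lib.BCH.CR
import Pool.Agent.Lib.BCH.AS
import Pool.Agent.Lib.BCH.SDK
import Pool.Agent.Lib.BCH.REP
import Pool.Agent.Lib.BCH.TW
import Pool.Agent.Lib.BCH.END
import Pool.Agent.Lib.BCH.L1
import Pool.Agent.Lib.BCH.HOM
import Pool.Agent.Lib.BCH.KER
import Pool.Agent.Lib.BCH.TR
import Pool.Agent.Lib.BCH.PAIR
import Pool.Agent.Lib.BCH.SW
import Pool.Agent.Lib.BCH.RED
import Pool.Agent.Lib.BCH.SPLIT
import Pool.Agent.Lib.BCH.Blue4
import Pool.Agent.Lib.BCC.Main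
import Pool.Agent.Lib.SD.CAT
import Pool.Agent.Lib.PD.Ample

/-! Subexponential decay for word balls implies that the assembly map is onto. -/

namespace Pool.Agent.Lib.PD

open Pool.Agent.Lib.SD Pool.Agent.Lib.BCH

variable {Γ X : Type} [Group Γ] [MetricSpace X] [MulAction Γ X] [IsIsometricSMul Γ X] {o : X}

theorem word_of_dist (hC : HasCNMidpoints X) {D : ℝ} (hD : ∀ x : X, ∃ g : Γ, dist x (g • o) ≤ D)
    (j : ℕ) : ∀ g : Γ, dist o (g • o) ≤ 2 * D + 2 ^ j → ∃ l : List Γ, l.length = 2 ^ j ∧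
      (∀ s ∈ l, dist o (s • o) ≤ 2 * D + 1) ∧ l.prod = g := by
  induction j with
  | zero => exact fun g hg => ⟨[g], rfl, by simpa using hg, by simp⟩
  | succ j ih =>
    intro g hg
    obtain ⟨m, hm⟩ := hC o (g • o)
    obtain ⟨a1, a2⟩ := CAT.half hm
    obtain ⟨h, hh⟩ := hD m
    rw [pow_succ] at hg
    obtain ⟨l, l1, l2, l3⟩ := ih h (by linarith [dist_triangle o m (h • o)])
    obtain ⟨k, k1, k2, k3⟩ := ih (h⁻¹ * g) (by
      rw [CAT.d_eq]; linarith [dist_triangle (h • o) m (g • o), dist_comm m (h • o)])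
    refine ⟨l ++ k, by rw [List.length_append, l1, k1]; ring, fun s hs => ?_, by simp [l3, k3]⟩
    exact (List.mem_append.1 hs).elim (l2 s) (k2 s)

theorem decay_of_word (hG : Geom Γ o) (h : ∀ S : Finset Γ, SubexpDecay (wordBall S)) :
    SubexpDecay fun r => {g : Γ | dist o (g • o) ≤ r} := by
  obtain ⟨D, hD⟩ := hG.cocpt
  have D0 : 0 ≤ D := by obtain ⟨g, hg⟩ := hD o; exact dist_nonneg.trans hg
  intro ε hε
  obtain ⟨C, hC⟩ := h (hG.proper (2 * D + 1)).toFinset (ε / 2) (half_pos hε)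
  refine ⟨C * Real.exp ε, fun r hr f g hf => (hC (2 * (r + 1)) (by positivity) f g
    fun x hx => ?_).trans_eq ?_⟩
  · obtain ⟨j, j1, j2⟩ := exists_nat_pow_near (x := r + 1) (y := 2) (by linarith) one_lt_two
    obtain ⟨l, l1, l2, l3⟩ := word_of_dist hG.cn hD (j + 1) x
      (le_trans (hf x hx) (by linarith))
    refine ⟨l, ?_, fun s hs => Or.inl (by simpa using l2 s hs), l3⟩
    rw [l1]; push_cast; rw [pow_succ]; linarith
  · rw [mul_assoc C (Real.exp ε), ← Real.exp_add]; congr 4; ring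

theorem stEND' : St_END := stEND (stL1 stHOM stKER) stTR stKER stTW (stREP stTW) (stPAIR stKER stTW)

theorem stCR' : St_CR := stCR stAS stSDK BCC.stCD (stREP stTW) stTW stEND' stSW

theorem vanish [ProperSpace X] {Z : Type} [MulAction Γ Z] {pos : Z → X} (hG : Geom Γ o)
    (h : SubexpDecay fun r => {g : Γ | dist o (g • o) ≤ r}) (hZ : IsAmple Γ pos) :
    Vanish Γ pos := by
  obtain ⟨z, hz⟩ := stCR' Γ X Z o pos hG h hZ
  exact stRED Γ X Z o pos z hG hZ hz

open scoped ZeroAtInfty in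
theorem boundary_onto {n : ℕ} {J A Q : Type}
    {_ : NonUnitalNormedRing J} {_ : NormedSpace ℝ J} {_ : IsScalarTower ℝ J J}
    {_ : SMulCommClass ℝ J J} {_ : NonUnitalNormedRing A} {_ : NormedSpace ℝ A}
    {_ : IsScalarTower ℝ A A} {_ : SMulCommClass ℝ A A} {_ : NonUnitalNormedRing Q}
    {_ : NormedSpace ℝ Q} {_ : IsScalarTower ℝ Q Q} {_ : SMulCommClass ℝ Q Q}
    {_ : CompleteSpace A} {_ : CompleteSpace Q} {E : Ext J A Q} {hi : Isometry E.ι}
    {hp : Continuous E.π}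
    (h : ∀ ι : C₀(EuclideanSpace ℝ (Fin n), J) →ₙₐ[ℝ] C₀(EuclideanSpace ℝ (Fin n), A),
      (∀ f t, ι f t = E.ι (f t)) → ∀ x ∈ K0r C₀(EuclideanSpace ℝ (Fin n), J),
        K0.map (S := Unitization ℝ C₀(EuclideanSpace ℝ (Fin n), A))
          (NonUnitalRingHomClass.toNonUnitalRingHom (unitMap ι)) x = 0) :
    Function.Surjective (E.boundary n hi hp) :=
  Ext.bdry_surjective _ _ (h _ fun _ _ => rfl)

theorem onto [ProperSpace X] {Z : Type} [MulAction Γ Z] {pos : Z → X} (hG : Geom Γ o)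
    (h : SubexpDecay fun r => {g : Γ | dist o (g • o) ≤ r}) (hZ : IsAmple Γ pos) (n : ℕ) :
    Function.Surjective (assembly Γ pos n) := by
  unfold assembly
  refine boundary_onto ?_
  intro ι hι x hx
  exact stSPLIT Γ X Z pos n (vanish hG h hZ) ι (fun f t => congrArg Subtype.val (hι f t)) x hx

end Pool.Agent.Lib.PD
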